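import Mathlib
import Pool.Agent.H80.TripodFin

set_option autoImplicit false

namespace Pool.Agent.Results.MP_0eda79_ag.ClawCounterexample

/-- The toric ideal `I(X(G, K_{1,3}))` of the group-based model on the claw tree with three
leaves: the kernel of `q_g ↦ a^1_{g_1} a^2_{g_2} a^3_{g_3}` over triples with sum zero. -/
noncomputable def clawIdeal (G : Type) [AddCommGroup G] :
    Ideal (MvPolynomial {g : Fin 3 → G // ∑ i, g i = 0} ℂ) :=
  RingHom.ker (MvPolynomial.aeval (R := ℂ) (fun g : {g : Fin 3 → G // ∑ i, g i = 0} =>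
    ∏ i : Fin 3, (MvPolynomial.X (i, g.1 i) : MvPolynomial (Fin 3 × G) ℂ)))

/-- The ideal generated by the homogeneous elements of `I` of degree exactly `d`. -/
noncomputable def degreePart {σ : Type} (I : Ideal (MvPolynomial σ ℂ)) (d : ℕ) :
    Ideal (MvPolynomial σ ℂ) :=
  Ideal.span {q | q ∈ I ∧ q.IsHomogeneous d}

/-- The saturation `(J : m^∞)` with respect to the ideal `m` generated by all variables. -/
noncomputable def saturation {σ : Type} (J : Ideal (MvPolynomial σ ℂ)) :
    Ideal (MvPolynomial σ ℂ) :=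
  ⨆ k : ℕ, Submodule.colon J
    (((Ideal.span (Set.range (MvPolynomial.X : σ → MvPolynomial σ ℂ))) ^ k :
      Ideal (MvPolynomial σ ℂ)) : Set (MvPolynomial σ ℂ))

theorem result : ∃ (G : Type) (_ : AddCommGroup G) (_ : Fintype G),
    saturation (degreePart (clawIdeal G) (Fintype.card G)) ≠ clawIdeal G := by
  refine ⟨Pool.Agent.H80.Tripod.G 11, inferInstance, inferInstance, fun H => ?_⟩
  obtain ⟨z, f, p, hf, hp, hz, hq⟩ := Pool.Agent.H80.TripodFin.main_fin 11 (by norm_num)
  have h1 : degreePart (clawIdeal (Pool.Agent.H80.Tripod.G 11))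
      (Fintype.card (Pool.Agent.H80.Tripod.G 11)) ≤ RingHom.ker (MvPolynomial.eval z) := by
    rw [degreePart, Ideal.span_le]
    intro q hqS
    apply hq q hqS.1
    refine lt_of_le_of_lt hqS.2.totalDegree_le ?_
    rw [Pool.Agent.H80.Tripod.card_G]; norm_num
  have h2 : saturation (degreePart (clawIdeal (Pool.Agent.H80.Tripod.G 11))
      (Fintype.card (Pool.Agent.H80.Tripod.G 11))) ≤ RingHom.ker (MvPolynomial.eval z) := by
    refine iSup_le fun k r hr => ?_
    have h3 := h1 (Submodule.mem_colon.1 hr (MvPolynomial.X f ^ k)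
      (Ideal.pow_mem_pow (Ideal.subset_span (Set.mem_range_self f)) k))
    rw [RingHom.mem_ker, smul_eq_mul, map_mul, map_pow, MvPolynomial.eval_X] at h3
    exact (mul_eq_zero.1 h3).resolve_right (pow_ne_zero _ hf)
  rw [H] at h2
  exact hz (h2 hp)

end Pool.Agent.Results.MP_0eda79_ag.ClawCounterexample
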